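import Pool.Agent.V8H23.TM.Basic

/-!
# The coefficients of the 5-th power of the Thue-Morse product
-/

set_option autoImplicit false
set_option maxRecDepth 100000
set_option linter.unusedSimpArgs false
set_option linter.unreachableTactic false
set_option linter.unusedTactic false

namespace Pool.Agent.V8H23.TM.Five

open Finset Matrix

lemma T_even (z : ℤ) : T 5 (2 * z) = (1) * T 5 z + (10) * T 5 (z - 1) + (5) * T 5 (z - 2) := by
  rw [T_rec]
  simp only [sum_range_succ, sum_range_zero, zero_add]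
  rw [if_pos (show (2 * z - ((0 : ℕ) : ℤ)) % 2 = 0 by push_cast; omega)]
  rw [if_neg (show ¬ (2 * z - ((1 : ℕ) : ℤ)) % 2 = 0 by push_cast; omega)]
  rw [if_pos (show (2 * z - ((2 : ℕ) : ℤ)) % 2 = 0 by push_cast; omega)]
  rw [if_neg (show ¬ (2 * z - ((3 : ℕ) : ℤ)) % 2 = 0 by push_cast; omega)]
  rw [if_pos (show (2 * z - ((4 : ℕ) : ℤ)) % 2 = 0 by push_cast; omega)]
  rw [if_neg (show ¬ (2 * z - ((5 : ℕ) : ℤ)) % 2 = 0 by push_cast; omega)]
  rw [show (2 * z - ((0 : ℕ) : ℤ)) / 2 = z by push_cast; omega]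
  rw [show (2 * z - ((2 : ℕ) : ℤ)) / 2 = z - 1 by push_cast; omega]
  rw [show (2 * z - ((4 : ℕ) : ℤ)) / 2 = z - 2 by push_cast; omega]
  norm_num [Nat.choose]

lemma T_odd (z : ℤ) : T 5 (2 * z + 1) = (-5) * T 5 z + (-10) * T 5 (z - 1) + (-1) * T 5 (z - 2) := by
  rw [T_rec]
  simp only [sum_range_succ, sum_range_zero, zero_add]
  rw [if_neg (show ¬ (2 * z + 1 - ((0 : ℕ) : ℤ)) % 2 = 0 by push_cast; omega)]
  rw [if_pos (show (2 * z + 1 - ((1 : ℕ) : ℤ)) % 2 = 0 by push_cast; omega)]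
  rw [if_neg (show ¬ (2 * z + 1 - ((2 : ℕ) : ℤ)) % 2 = 0 by push_cast; omega)]
  rw [if_pos (show (2 * z + 1 - ((3 : ℕ) : ℤ)) % 2 = 0 by push_cast; omega)]
  rw [if_neg (show ¬ (2 * z + 1 - ((4 : ℕ) : ℤ)) % 2 = 0 by push_cast; omega)]
  rw [if_pos (show (2 * z + 1 - ((5 : ℕ) : ℤ)) % 2 = 0 by push_cast; omega)]
  rw [show (2 * z + 1 - ((1 : ℕ) : ℤ)) / 2 = z by push_cast; omega]
  rw [show (2 * z + 1 - ((3 : ℕ) : ℤ)) / 2 = z - 1 by push_cast; omega]
  rw [show (2 * z + 1 - ((5 : ℕ) : ℤ)) / 2 = z - 2 by push_cast; omega]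
  norm_num [Nat.choose]

/-- the matrix of the step `z ↦ 2 z + 1` -/
def M : Matrix (Fin 4) (Fin 4) ℤ := !![-5, -10, -1, 0;
    1, 10, 5, 0;
    0, -5, -10, -1;
    0, 1, 10, 5]

/-- the matrix of the step `z ↦ 2 z` -/
def B : Matrix (Fin 4) (Fin 5) ℤ := !![1, 10, 5, 0, 0;
    0, -5, -10, -1, 0;
    0, 1, 10, 5, 0;
    0, 0, -5, -10, -1]

def R0 : Matrix (Fin 4) (Fin 5) ℤ := !![15, 340, 170, -140, -1;
    5, -276, -610, -20, 5;
    -5, 20, 610, 276, -5;
    1, 140, -170, -340, -15]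

def R1 : Matrix (Fin 4) (Fin 5) ℤ := !![-120, 1040, 4640, 624, -40;
    40, -2320, -2880, 1040, 24;
    24, 1040, -2880, -2320, 40;
    -40, 624, 4640, 1040, -120]

def R2 : Matrix (Fin 4) (Fin 5) ℤ := !![176, 16960, 8480, -11200, -80;
    400, -16960, -38560, -576, 400;
    -400, 576, 38560, 16960, -400;
    80, 11200, -8480, -16960, -176]

def R3 : Matrix (Fin 4) (Fin 5) ℤ := !![-4480, 84224, 304640, 44800, -3200;
    2176, -149760, -184320, 67840, 1920;
    1920, 67840, -184320, -149760, 2176;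
    -3200, 44800, 304640, 84224, -4480]

def R4 : Matrix (Fin 4) (Fin 5) ℤ := !![-1280, 1008640, 504320, -752640, -5376;
    26880, -1074176, -2460160, -25600, 26880;
    -26880, 25600, 2460160, 1074176, -26880;
    5376, 752640, -504320, -1008640, 1280]

/-- windows of consecutive coefficients -/
noncomputable def W (z : ℤ) : Fin 4 → ℤ := fun i => T 5 (z - (i : ℕ))

noncomputable def Xv (z : ℤ) : Fin 5 → ℤ := fun i => T 5 (z - (i : ℕ))

lemma M_mulVec (v : Fin 4 → ℤ) : M.mulVec v = ![(-5) * v 0 + (-10) * v 1 + (-1) * v 2 + (0) * v 3,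
    (1) * v 0 + (10) * v 1 + (5) * v 2 + (0) * v 3,
    (0) * v 0 + (-5) * v 1 + (-10) * v 2 + (-1) * v 3,
    (0) * v 0 + (1) * v 1 + (10) * v 2 + (5) * v 3] := by
  funext i
  fin_cases i <;> simp [M, mulVec, dotProduct, Fin.sum_univ_succ] <;> try ring

lemma B_mulVec (v : Fin 5 → ℤ) : B.mulVec v = ![(1) * v 0 + (10) * v 1 + (5) * v 2 + (0) * v 3 + (0) * v 4,
    (0) * v 0 + (-5) * v 1 + (-10) * v 2 + (-1) * v 3 + (0) * v 4,
    (0) * v 0 + (1) * v 1 + (10) * v 2 + (5) * v 3 + (0) * v 4,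
    (0) * v 0 + (0) * v 1 + (-5) * v 2 + (-10) * v 3 + (-1) * v 4] := by
  funext i
  fin_cases i <;> simp [B, mulVec, dotProduct, Fin.sum_univ_succ] <;> try ring

lemma W_odd (z : ℤ) : W (2 * z + 1) = M.mulVec (W z) := by
  rw [M_mulVec]
  have h0 : T 5 (2 * z + 1 - ((0 : ℕ) : ℤ)) = T 5 (2 * (z - 0) + 1) := by congr 1; push_cast; ring
  rw [T_odd] at h0
  simp only [sub_sub] at h0
  norm_num at h0
  have h1 : T 5 (2 * z + 1 - ((1 : ℕ) : ℤ)) = T 5 (2 * (z - 0)) := by congr 1; push_cast; ring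
  rw [T_even] at h1
  simp only [sub_sub] at h1
  norm_num at h1
  have h2 : T 5 (2 * z + 1 - ((2 : ℕ) : ℤ)) = T 5 (2 * (z - 1) + 1) := by congr 1; push_cast; ring
  rw [T_odd] at h2
  simp only [sub_sub] at h2
  norm_num at h2
  have h3 : T 5 (2 * z + 1 - ((3 : ℕ) : ℤ)) = T 5 (2 * (z - 1)) := by congr 1; push_cast; ring
  rw [T_even] at h3
  simp only [sub_sub] at h3
  norm_num at h3
  funext i
  fin_cases i
  · simp [W, Xv]
    first | linarith [h0] | (norm_num at *; linarith [h0])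
  · simp [W, Xv]
    first | linarith [h1] | (norm_num at *; linarith [h1])
  · simp [W, Xv]
    first | linarith [h2] | (norm_num at *; linarith [h2])
  · simp [W, Xv]
    first | linarith [h3] | (norm_num at *; linarith [h3])

lemma W_even (z : ℤ) : W (2 * z) = B.mulVec (Xv z) := by
  rw [B_mulVec]
  have h0 : T 5 (2 * z - ((0 : ℕ) : ℤ)) = T 5 (2 * (z - 0)) := by congr 1; push_cast; ring
  rw [T_even] at h0
  simp only [sub_sub] at h0
  norm_num at h0
  have h1 : T 5 (2 * z - ((1 : ℕ) : ℤ)) = T 5 (2 * (z - 1) + 1) := by congr 1; push_cast; ring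
  rw [T_odd] at h1
  simp only [sub_sub] at h1
  norm_num at h1
  have h2 : T 5 (2 * z - ((2 : ℕ) : ℤ)) = T 5 (2 * (z - 1)) := by congr 1; push_cast; ring
  rw [T_even] at h2
  simp only [sub_sub] at h2
  norm_num at h2
  have h3 : T 5 (2 * z - ((3 : ℕ) : ℤ)) = T 5 (2 * (z - 2) + 1) := by congr 1; push_cast; ring
  rw [T_odd] at h3
  simp only [sub_sub] at h3
  norm_num at h3
  funext i
  fin_cases i
  · simp [W, Xv]
    first | linarith [h0] | (norm_num at *; linarith [h0])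
  · simp [W, Xv]
    first | linarith [h1] | (norm_num at *; linarith [h1])
  · simp [W, Xv]
    first | linarith [h2] | (norm_num at *; linarith [h2])
  · simp [W, Xv]
    first | linarith [h3] | (norm_num at *; linarith [h3])

lemma parity (n : ℕ) : (T 5 n + T 5 (n - 4)) % 2 = 1 := by
  induction n using Nat.strong_induction_on with
  | _ n ih =>
    rcases Nat.eq_zero_or_pos n with h0 | h0
    · subst h0
      have h1 : T 5 (((0 : ℕ) : ℤ) - 4) = 0 := T_neg (by norm_num)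
      have h2 := T_zero 5
      rw [h1]
      norm_num [h2]
    · obtain ⟨a, ha | ha⟩ := Nat.even_or_odd' n
      · have h1 := ih a (by omega)
        have e1 := T_even (a : ℤ)
        have e2 := T_even ((a : ℤ) - 2)
        simp only [sub_sub] at e2
        norm_num at e2
        rw [show ((n : ℕ) : ℤ) = 2 * (a : ℤ) by rw [ha]; push_cast; ring]
        rw [show (2 * (a : ℤ) - 4) = 2 * ((a : ℤ) - 2) by ring]
        omega
      · have h1 := ih a (by omega)
        have e1 := T_odd (a : ℤ)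
        have e2 := T_odd ((a : ℤ) - 2)
        simp only [sub_sub] at e2
        norm_num at e2
        rw [show ((n : ℕ) : ℤ) = 2 * (a : ℤ) + 1 by rw [ha]; push_cast; ring]
        rw [show (2 * (a : ℤ) + 1 - 4) = 2 * ((a : ℤ) - 2) + 1 by ring]
        omega

/-- the matrices of the windows -/
def R : ℕ → Matrix (Fin 4) (Fin 5) ℤ
  | 0 => R0
  | s + 1 => M * R s

lemma mul_R0 : M * R0 = R1 := by decide +kernel

lemma mul_R1 : M * R1 = R2 := by decide +kernel

lemma mul_R2 : M * R2 = R3 := by decide +kernel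

lemma mul_R3 : M * R3 = R4 := by decide +kernel

lemma R_0 : R 0 = R0 := rfl

lemma R_1 : R 1 = R1 := by
  show M * R 0 = R1
  rw [R_0, mul_R0]

lemma R_2 : R 2 = R2 := by
  show M * R 1 = R2
  rw [R_1, mul_R1]

lemma R_3 : R 3 = R3 := by
  show M * R 2 = R3
  rw [R_2, mul_R2]

lemma R_4 : R 4 = R4 := by
  show M * R 3 = R4
  rw [R_3, mul_R3]

lemma rec0 : R4 = (80 : ℤ) • R2 + (-1024 : ℤ) • R0 := by decide +kernel

lemma R_rec (s : ℕ) : R (s + 4) = (80 : ℤ) • R (s + 2) + (-1024 : ℤ) • R s := by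
  induction s with
  | zero =>
    simp only [zero_add]
    rw [R_4, R_2, R_0, rec0]
  | succ s ih =>
    have h1 : R (s + 1 + 4) = M * R (s + 4) := by rw [show s + 1 + 4 = (s + 4) + 1 by ring]; rfl
    rw [h1, ih]
    simp only [Matrix.mul_add, Matrix.mul_smul]
    rw [show R (s + 1 + 2) = M * R (s + 2) by rw [show s + 1 + 2 = (s + 2) + 1 by ring]; rfl]
    rw [show R (s + 1) = M * R s from rfl]

lemma R0_eq : M * (M * B) = R0 := by decide +kernel

lemma W_R (n : ℤ) (s : ℕ) : W (2 ^ s * (8 * n + 4) - 1) = (R s).mulVec (Xv n) := by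
  induction s with
  | zero =>
    have h0 := W_even n
    have h1 := W_odd (2 * n)
    rw [h0, mulVec_mulVec] at h1
    have h2 := W_odd (2 * (2 * n) + 1)
    rw [h1, mulVec_mulVec] at h2
    rw [R0_eq] at h2
    rw [show (2 ^ 0 * (8 * n + 4) - 1 : ℤ) = 2 * (2 * (2 * n) + 1) + 1 by ring, h2]
    rfl
  | succ s ih =>
    rw [show (2 ^ (s + 1) * (8 * n + 4) - 1 : ℤ) = 2 * (2 ^ s * (8 * n + 4) - 1) + 1 by ring,
      W_odd, ih, mulVec_mulVec]
    rfl

lemma mod_R0 : ∀ i l, R0 i l % 2 ^ (0 + 1) = if l = 0 ∨ l = 4 then 2 ^ 0 else 0 := by decide +kernel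

lemma mod_R1 : ∀ i l, R1 i l % 2 ^ (3 + 1) = if l = 0 ∨ l = 4 then 2 ^ 3 else 0 := by decide +kernel

lemma mod_R2 : ∀ i l, R2 i l % 2 ^ (4 + 1) = if l = 0 ∨ l = 4 then 2 ^ 4 else 0 := by decide +kernel

lemma mod_R3 : ∀ i l, R3 i l % 2 ^ (7 + 1) = if l = 0 ∨ l = 4 then 2 ^ 7 else 0 := by decide +kernel

/-- the exponent -/
def ex (s : ℕ) : ℕ := 4 * ((s + 1) / 2) - s % 2

lemma ex_two (r : ℕ) : ex (r + 2) = ex r + 4 := by
  obtain ⟨u, rfl | rfl⟩ := Nat.even_or_odd' r <;> unfold ex <;> omega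

lemma val (n s : ℕ) (i : Fin 4) : ∃ y : ℤ, y % 2 = 1 ∧ (R s).mulVec (Xv n) i = 2 ^ ex s * y := by
  have hp : (Xv n 0 + Xv n 4) % 2 = 1 := by
    have := parity n
    simpa [Xv] using this
  induction s using Nat.strong_induction_on with
  | _ s ih =>
    rcases Nat.lt_or_ge s 4 with hs | hs
    · interval_cases s
      · rw [R_0]
        exact sum_mod (R0 i) (Xv n) 0 0 4 (by decide) (mod_R0 i) hp
      · rw [R_1]
        exact sum_mod (R1 i) (Xv n) 3 0 4 (by decide) (mod_R1 i) hp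
      · rw [R_2]
        exact sum_mod (R2 i) (Xv n) 4 0 4 (by decide) (mod_R2 i) hp
      · rw [R_3]
        exact sum_mod (R3 i) (Xv n) 7 0 4 (by decide) (mod_R3 i) hp
    · obtain ⟨r, rfl⟩ := Nat.exists_eq_add_of_le' hs
      obtain ⟨y2, hy2, hr2⟩ := ih (r + 2) (by omega)
      obtain ⟨y0, hy0, hr0⟩ := ih (r) (by omega)
      rw [R_rec]
      simp only [add_mulVec, smul_mulVec, Pi.add_apply, Pi.smul_apply, smul_eq_mul]
      rw [hr2, hr0]
      have e2 : ex (r + 2) = ex r + 4 := by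
        have h1 := ex_two r
        omega
      have e4 : ex (r + 4) = ex r + 8 := by
        have h1 := ex_two r
        have h3 : ex (r + 4) = ex (r + 2) + 4 := ex_two (r + 2)
        omega
      refine ⟨5 * y2 + (-4) * y0, by omega, ?_⟩
      rw [e2, e4]
      simp only [pow_add]
      ring

theorem main (n j : ℕ) (hj : j < 4) : emultiplicity (2 : ℤ)
    (Pool.Agent.Results.MP_1a5b88_nt.NotDetermined.t 5 (4 * n + j)) = (ex (padicValNat 2 (n + 1)) : ℕ∞) := by
  obtain ⟨v, a, ha, hv⟩ := Nat.exists_eq_two_pow_mul_odd (n := n + 1) (by omega)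
  obtain ⟨b, rfl⟩ := ha
  have hval : padicValNat 2 (n + 1) = v := by
    rw [hv, padicValNat.mul (by positivity) (by omega), padicValNat.prime_pow,
      padicValNat.eq_zero_of_not_dvd (by omega), add_zero]
  rw [hval]
  have h1 : (((4 * n + j : ℕ)) : ℤ) = 2 ^ v * (8 * (b : ℤ) + 4) - 1 - ((3 - j : ℕ) : ℤ) := by
    have h2 : ((n + 1 : ℕ) : ℤ) = 2 ^ v * (2 * b + 1) := by rw [hv]; push_cast; ring
    have h3 : ((3 - j : ℕ) : ℤ) = 3 - j := by omega
    have h4 : (2 : ℤ) ^ v * (8 * (b : ℤ) + 4) = 4 * (2 ^ v * (2 * b + 1)) := by ring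
    rw [h4, ← h2, h3]; push_cast; ring
  rw [← T_nat, h1]
  obtain ⟨y, hy, h⟩ := val b v ⟨3 - j, by omega⟩
  rw [← W_R] at h
  unfold W at h
  rw [h]
  exact emult hy

end Pool.Agent.V8H23.TM.Five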