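import Pool.Agent.V8H23.TM.Basic

/-!
# The coefficients of the 9-th power of the Thue-Morse product
-/

set_option autoImplicit false
set_option maxRecDepth 100000
set_option linter.unusedSimpArgs false
set_option linter.unreachableTactic false
set_option linter.unusedTactic false

namespace Pool.Agent.V8H23.TM.Nine

open Finset Matrix

lemma T_even (z : ℤ) : T 9 (2 * z) = (1) * T 9 z + (36) * T 9 (z - 1) + (126) * T 9 (z - 2) + (84) * T 9 (z - 3) + (9) * T 9 (z - 4) := by
  rw [T_rec]
  simp only [sum_range_succ, sum_range_zero, zero_add]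
  rw [if_pos (show (2 * z - ((0 : ℕ) : ℤ)) % 2 = 0 by push_cast; omega)]
  rw [if_neg (show ¬ (2 * z - ((1 : ℕ) : ℤ)) % 2 = 0 by push_cast; omega)]
  rw [if_pos (show (2 * z - ((2 : ℕ) : ℤ)) % 2 = 0 by push_cast; omega)]
  rw [if_neg (show ¬ (2 * z - ((3 : ℕ) : ℤ)) % 2 = 0 by push_cast; omega)]
  rw [if_pos (show (2 * z - ((4 : ℕ) : ℤ)) % 2 = 0 by push_cast; omega)]
  rw [if_neg (show ¬ (2 * z - ((5 : ℕ) : ℤ)) % 2 = 0 by push_cast; omega)]
  rw [if_pos (show (2 * z - ((6 : ℕ) : ℤ)) % 2 = 0 by push_cast; omega)]
  rw [if_neg (show ¬ (2 * z - ((7 : ℕ) : ℤ)) % 2 = 0 by push_cast; omega)]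
  rw [if_pos (show (2 * z - ((8 : ℕ) : ℤ)) % 2 = 0 by push_cast; omega)]
  rw [if_neg (show ¬ (2 * z - ((9 : ℕ) : ℤ)) % 2 = 0 by push_cast; omega)]
  rw [show (2 * z - ((0 : ℕ) : ℤ)) / 2 = z by push_cast; omega]
  rw [show (2 * z - ((2 : ℕ) : ℤ)) / 2 = z - 1 by push_cast; omega]
  rw [show (2 * z - ((4 : ℕ) : ℤ)) / 2 = z - 2 by push_cast; omega]
  rw [show (2 * z - ((6 : ℕ) : ℤ)) / 2 = z - 3 by push_cast; omega]
  rw [show (2 * z - ((8 : ℕ) : ℤ)) / 2 = z - 4 by push_cast; omega]
  norm_num [Nat.choose]

lemma T_odd (z : ℤ) : T 9 (2 * z + 1) = (-9) * T 9 z + (-84) * T 9 (z - 1) + (-126) * T 9 (z - 2) + (-36) * T 9 (z - 3) + (-1) * T 9 (z - 4) := by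
  rw [T_rec]
  simp only [sum_range_succ, sum_range_zero, zero_add]
  rw [if_neg (show ¬ (2 * z + 1 - ((0 : ℕ) : ℤ)) % 2 = 0 by push_cast; omega)]
  rw [if_pos (show (2 * z + 1 - ((1 : ℕ) : ℤ)) % 2 = 0 by push_cast; omega)]
  rw [if_neg (show ¬ (2 * z + 1 - ((2 : ℕ) : ℤ)) % 2 = 0 by push_cast; omega)]
  rw [if_pos (show (2 * z + 1 - ((3 : ℕ) : ℤ)) % 2 = 0 by push_cast; omega)]
  rw [if_neg (show ¬ (2 * z + 1 - ((4 : ℕ) : ℤ)) % 2 = 0 by push_cast; omega)]
  rw [if_pos (show (2 * z + 1 - ((5 : ℕ) : ℤ)) % 2 = 0 by push_cast; omega)]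
  rw [if_neg (show ¬ (2 * z + 1 - ((6 : ℕ) : ℤ)) % 2 = 0 by push_cast; omega)]
  rw [if_pos (show (2 * z + 1 - ((7 : ℕ) : ℤ)) % 2 = 0 by push_cast; omega)]
  rw [if_neg (show ¬ (2 * z + 1 - ((8 : ℕ) : ℤ)) % 2 = 0 by push_cast; omega)]
  rw [if_pos (show (2 * z + 1 - ((9 : ℕ) : ℤ)) % 2 = 0 by push_cast; omega)]
  rw [show (2 * z + 1 - ((1 : ℕ) : ℤ)) / 2 = z by push_cast; omega]
  rw [show (2 * z + 1 - ((3 : ℕ) : ℤ)) / 2 = z - 1 by push_cast; omega]
  rw [show (2 * z + 1 - ((5 : ℕ) : ℤ)) / 2 = z - 2 by push_cast; omega]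
  rw [show (2 * z + 1 - ((7 : ℕ) : ℤ)) / 2 = z - 3 by push_cast; omega]
  rw [show (2 * z + 1 - ((9 : ℕ) : ℤ)) / 2 = z - 4 by push_cast; omega]
  norm_num [Nat.choose]

/-- the matrix of the step `z ↦ 2 z + 1` -/
def M : Matrix (Fin 8) (Fin 8) ℤ := !![-9, -84, -126, -36, -1, 0, 0, 0;
    1, 36, 126, 84, 9, 0, 0, 0;
    0, -9, -84, -126, -36, -1, 0, 0;
    0, 1, 36, 126, 84, 9, 0, 0;
    0, 0, -9, -84, -126, -36, -1, 0;
    0, 0, 1, 36, 126, 84, 9, 0;
    0, 0, 0, -9, -84, -126, -36, -1;
    0, 0, 0, 1, 36, 126, 84, 9]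

/-- the matrix of the step `z ↦ 2 z` -/
def B : Matrix (Fin 8) (Fin 9) ℤ := !![1, 36, 126, 84, 9, 0, 0, 0, 0;
    0, -9, -84, -126, -36, -1, 0, 0, 0;
    0, 1, 36, 126, 84, 9, 0, 0, 0;
    0, 0, -9, -84, -126, -36, -1, 0, 0;
    0, 0, 1, 36, 126, 84, 9, 0, 0;
    0, 0, 0, -9, -84, -126, -36, -1, 0;
    0, 0, 0, 1, 36, 126, 84, 9, 0;
    0, 0, 0, 0, -9, -84, -126, -36, -1]

def R0 : Matrix (Fin 8) (Fin 9) ℤ := !![-1143, 307584, 190404, -19239696, -18373410, 6401376, 1798740, -18000, 1;
    -81, -105984, 3948444, 14262544, -9700686, -13904352, -501876, 70992, -9;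
    387, -110832, -3252996, 5679648, 28007322, 6474960, -1903284, -62848, 27;
    -171, 150768, -282268, -17359776, -15176394, 9661488, 2633364, -41472, -3;
    -3, -41472, 2633364, 9661488, -15176394, -17359776, -282268, 150768, -171;
    27, -62848, -1903284, 6474960, 28007322, 5679648, -3252996, -110832, 387;
    -9, 70992, -501876, -13904352, -9700686, 14262544, 3948444, -105984, -81;
    1, -18000, 1798740, 6401376, -18373410, -19239696, 190404, 307584, -1143]

def R1 : Matrix (Fin 8) (Fin 9) ℤ := !![-25512, 14713056, 84022848, -1125241632, -1987177680, -35945568, 171263872, 3459744, -2376;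
    30312, -5181408, -267553344, -161420256, 1749919824, 977016672, -37420416, -7507872, 1288;
    -10152, -7177184, 180383616, 1227589920, 165259632, -1016832672, -153996480, 4548960, 3960;
    -7704, 10851552, 55347840, -1098762272, -1936413936, 29437344, 209796288, 4250016, -10296;
    10296, -4250016, -209796288, -29437344, 1936413936, 1098762272, -55347840, -10851552, 7704;
    -3960, -4548960, 153996480, 1016832672, -165259632, -1227589920, -180383616, 7177184, 10152;
    -1288, 7507872, 37420416, -977016672, -1749919824, 161420256, 267553344, 5181408, -30312;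
    2376, -3459744, -171263872, 35945568, 1987177680, 1125241632, -84022848, -14713056, 25512]

def R2 : Matrix (Fin 8) (Fin 9) ℤ := !![-770400, 820740096, -2792786304, -91404974592, -82156891968, 44216519680, 13508178048, -115794432, -222816;
    -767904, -202862592, 15941490048, 55178992128, -63398395584, -80622664704, -3454669952, 565682688, -252576;
    1183968, -560229888, -12319401600, 36822187008, 144811426368, 34583837184, -10988938368, -466565120, 665568;
    -476640, 705793536, -3036835200, -87733472256, -75117455424, 49327867392, 14580367488, -155179008, -414944;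
    -414944, -155179008, 14580367488, 49327867392, -75117455424, -87733472256, -3036835200, 705793536, -476640;
    665568, -466565120, -10988938368, 34583837184, 144811426368, 36822187008, -12319401600, -560229888, 1183968;
    -252576, 565682688, -3454669952, -80622664704, -63398395584, 55178992128, 15941490048, -202862592, -767904;
    -222816, -115794432, 13508178048, 44216519680, -82156891968, -91404974592, -2792786304, 820740096, -770400]

def R3 : Matrix (Fin 8) (Fin 9) ℤ := !![-60168448, 54989374464, 333040214016, -5342908996608, -9402016614912, 328721918976, 1031368513536, 17192659968, -45225216;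
    76992768, -19181233152, -1105014595584, -391026557952, 8895817234944, 4853303686144, -298046822400, -45221317632, 35400960;
    -18213120, -33991902208, 760093267968, 5654355803136, 430642097664, -5273166818304, -761317982208, 28804543488, 14623488;
    -47066880, 51324724224, 315652220928, -5218844384256, -9321549848064, 341494778880, 1072101081088, 18461371392, -57957120;
    57957120, -18461371392, -1072101081088, -341494778880, 9321549848064, 5218844384256, -315652220928, -51324724224, 47066880;
    -14623488, -28804543488, 761317982208, 5273166818304, -430642097664, -5654355803136, -760093267968, 33991902208, 18213120;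
    -35400960, 45221317632, 298046822400, -4853303686144, -8895817234944, 391026557952, 1105014595584, 19181233152, -76992768;
    45225216, -17192659968, -1031368513536, -328721918976, 9402016614912, 5342908996608, -333040214016, -54989374464, 60168448]

def R4 : Matrix (Fin 8) (Fin 9) ℤ := !![-1994572800, 3570070192128, -16239266533376, -443296526745600, -390637157824512, 236270355775488, 73399695519744, -598800384000, -2369823744;
    -3015285760, -773390204928, 73190143365120, 251572584824832, -334007930456064, -413716203601920, -18408762028032, 3107430383616, -1373027328;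
    4695561216, -2745550454784, -55840562049024, 193148389195776, 723133837105152, 174013895393280, -56328031088640, -2525024419840, 4042994688;
    -1772319744, 3414029451264, -17174106083328, -435635670122496, -370981939746816, 245541366415360, 74023616065536, -687474671616, -2623214592;
    -2623214592, -687474671616, 74023616065536, 245541366415360, -370981939746816, -435635670122496, -17174106083328, 3414029451264, -1772319744;
    4042994688, -2525024419840, -56328031088640, 174013895393280, 723133837105152, 193148389195776, -55840562049024, -2745550454784, 4695561216;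
    -1373027328, 3107430383616, -18408762028032, -413716203601920, -334007930456064, 251572584824832, 73190143365120, -773390204928, -3015285760;
    -2369823744, -598800384000, 73399695519744, 236270355775488, -390637157824512, -443296526745600, -16239266533376, 3570070192128, -1994572800]

def R5 : Matrix (Fin 8) (Fin 9) ℤ := !![-253978828800, 256555917213696, 1578336377241600, -26041782665248768, -45816131125886976, 2296123560198144, 5335394595569664, 83853186859008, -276546576384;
    308612063232, -89620132626432, -5193717289975808, -1433510426935296, 44198620424552448, 23972991593447424, -1623230859902976, -233905990828032, 221317619712;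
    -53584551936, -165306848215040, 3587311141060608, 27387973393219584, 1638769459150848, -26342197813739520, -3755633773510656, 150597476646912, 62378680320;
    -241250443264, 250081412087808, 1610024012808192, -25493580002131968, -45699192607555584, 1933935411363840, 5335567773597696, 87653262458880, -292965064704;
    292965064704, -87653262458880, -5335567773597696, -1933935411363840, 45699192607555584, 25493580002131968, -1610024012808192, -250081412087808, 241250443264;
    -62378680320, -150597476646912, 3755633773510656, 26342197813739520, -1638769459150848, -27387973393219584, -3587311141060608, 165306848215040, 53584551936;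
    -221317619712, 233905990828032, 1623230859902976, -23972991593447424, -44198620424552448, 1433510426935296, 5193717289975808, 89620132626432, -308612063232;
    276546576384, -83853186859008, -5335394595569664, -2296123560198144, 45816131125886976, 26041782665248768, -1578336377241600, -256555917213696, 253978828800]

def R6 : Matrix (Fin 8) (Fin 9) ℤ := !![-8493899415552, 17132473188089856, -82559275498340352, -2176390912207749120, -1907352146117984256, 1189605263828582400, 371072280497356800, -2987293546119168, -13655982702592;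
    -13523949748224, -3580472479186944, 353827624825257984, 1214370350629388288, -1675620289555660800, -2061900309033123840, -92613294956347392, 15750660912316416, -6887209992192;
    21636785995776, -13511786554195968, -269128899777134592, 967782386075959296, 3579121885749510144, 862930923497717760, -280651049157132288, -12751721203761152, 20943329918976;
    -7970330345472, 16751339918327808, -87574479618572288, -2153028342770565120, -1830920693695709184, 1214298691770777600, 367927675421589504, -3287162743160832, -13699349839872;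
    -13699349839872, -3287162743160832, 367927675421589504, 1214298691770777600, -1830920693695709184, -2153028342770565120, -87574479618572288, 16751339918327808, -7970330345472;
    20943329918976, -12751721203761152, -280651049157132288, 862930923497717760, 3579121885749510144, 967782386075959296, -269128899777134592, -13511786554195968, 21636785995776;
    -6887209992192, 15750660912316416, -92613294956347392, -2061900309033123840, -1675620289555660800, 1214370350629388288, 353827624825257984, -3580472479186944, -13523949748224;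
    -13655982702592, -2987293546119168, 371072280497356800, 1189605263828582400, -1907352146117984256, -2176390912207749120, -82559275498340352, 17132473188089856, -8493899415552]

def R7 : Matrix (Fin 8) (Fin 9) ℤ := !![-1213146919600128, 1249291461070946304, 7716507956929363968, -128065450240600178688, -225307018299959672832, 12202157662635294720, 26644076610096988160, 412133515789860864, -1436283161542656;
    1438077047537664, -436721553440243712, -25299913362873778176, -6444170210769371136, 218464050520615550976, 118314325523158794240, -8207284112883449856, -1168039983537192960, 1154785667710976;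
    -219279588065280, -812364926886608896, 17492018123772002304, 134480833775800418304, 7464374695997472768, -130389492001963769856, -18528869153268301824, 754034688037748736, 294158363000832;
    -1201116694708224, 1229776880019701760, 8010868093907632128, -125459566519502503936, -225108481106926632960, 9860908781958856704, 26384419652552884224, 428012666090422272, -1453822087790592;
    1453822087790592, -428012666090422272, -26384419652552884224, -9860908781958856704, 225108481106926632960, 125459566519502503936, -8010868093907632128, -1229776880019701760, 1201116694708224;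
    -294158363000832, -754034688037748736, 18528869153268301824, 130389492001963769856, -7464374695997472768, -134480833775800418304, -17492018123772002304, 812364926886608896, 219279588065280;
    -1154785667710976, 1168039983537192960, 8207284112883449856, -118314325523158794240, -218464050520615550976, 6444170210769371136, 25299913362873778176, 436721553440243712, -1438077047537664;
    1436283161542656, -412133515789860864, -26644076610096988160, -12202157662635294720, 225307018299959672832, 128065450240600178688, -7716507956929363968, -1249291461070946304, 1213146919600128]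

def R8 : Matrix (Fin 8) (Fin 9) ℤ := !![-40464542698831872, 83955013112435834880, -410256964454361071616, -10724280402396774924288, -9384931451985318641664, 5900400946668357287936, 1842424449905146724352, -14780892816976379904, -70002922906189824;
    -64881004869844992, -17381521323649400832, 1736367053504010780672, 5957177711246715125760, -8303226070881615740928, -10200105679391016615936, -459262226796239650816, 78256136832625410048, -34111050507878400;
    104774058705420288, -66620248375752130560, -1319689443624710307840, 4794116100335559770112, 17674043745170066767872, 4263350331003421851648, -1388263040826728251392, -63296547116906708992, 104619728962584576;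
    -38323061548646400, 82530651817189048320, -435749309509747605504, -10627850445406139842560, -9034554039178371268608, 5995043203635285590016, 1818849219588931977216, -16083168866460499968, -68569777677795328;
    -68569777677795328, -16083168866460499968, 1818849219588931977216, 5995043203635285590016, -9034554039178371268608, -10627850445406139842560, -435749309509747605504, 82530651817189048320, -38323061548646400;
    104619728962584576, -63296547116906708992, -1388263040826728251392, 4263350331003421851648, 17674043745170066767872, 4794116100335559770112, -1319689443624710307840, -66620248375752130560, 104774058705420288;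
    -34111050507878400, 78256136832625410048, -459262226796239650816, -10200105679391016615936, -8303226070881615740928, 5957177711246715125760, 1736367053504010780672, -17381521323649400832, -64881004869844992;
    -70002922906189824, -14780892816976379904, 1842424449905146724352, 5900400946668357287936, -9384931451985318641664, -10724280402396774924288, -410256964454361071616, 83955013112435834880, -40464542698831872]

/-- windows of consecutive coefficients -/
noncomputable def W (z : ℤ) : Fin 8 → ℤ := fun i => T 9 (z - (i : ℕ))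

noncomputable def Xv (z : ℤ) : Fin 9 → ℤ := fun i => T 9 (z - (i : ℕ))

lemma M_mulVec (v : Fin 8 → ℤ) : M.mulVec v = ![(-9) * v 0 + (-84) * v 1 + (-126) * v 2 + (-36) * v 3 + (-1) * v 4 + (0) * v 5 + (0) * v 6 + (0) * v 7,
    (1) * v 0 + (36) * v 1 + (126) * v 2 + (84) * v 3 + (9) * v 4 + (0) * v 5 + (0) * v 6 + (0) * v 7,
    (0) * v 0 + (-9) * v 1 + (-84) * v 2 + (-126) * v 3 + (-36) * v 4 + (-1) * v 5 + (0) * v 6 + (0) * v 7,
    (0) * v 0 + (1) * v 1 + (36) * v 2 + (126) * v 3 + (84) * v 4 + (9) * v 5 + (0) * v 6 + (0) * v 7,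
    (0) * v 0 + (0) * v 1 + (-9) * v 2 + (-84) * v 3 + (-126) * v 4 + (-36) * v 5 + (-1) * v 6 + (0) * v 7,
    (0) * v 0 + (0) * v 1 + (1) * v 2 + (36) * v 3 + (126) * v 4 + (84) * v 5 + (9) * v 6 + (0) * v 7,
    (0) * v 0 + (0) * v 1 + (0) * v 2 + (-9) * v 3 + (-84) * v 4 + (-126) * v 5 + (-36) * v 6 + (-1) * v 7,
    (0) * v 0 + (0) * v 1 + (0) * v 2 + (1) * v 3 + (36) * v 4 + (126) * v 5 + (84) * v 6 + (9) * v 7] := by
  funext i
  fin_cases i <;> simp [M, mulVec, dotProduct, Fin.sum_univ_succ] <;> try ring

lemma B_mulVec (v : Fin 9 → ℤ) : B.mulVec v = ![(1) * v 0 + (36) * v 1 + (126) * v 2 + (84) * v 3 + (9) * v 4 + (0) * v 5 + (0) * v 6 + (0) * v 7 + (0) * v 8,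
    (0) * v 0 + (-9) * v 1 + (-84) * v 2 + (-126) * v 3 + (-36) * v 4 + (-1) * v 5 + (0) * v 6 + (0) * v 7 + (0) * v 8,
    (0) * v 0 + (1) * v 1 + (36) * v 2 + (126) * v 3 + (84) * v 4 + (9) * v 5 + (0) * v 6 + (0) * v 7 + (0) * v 8,
    (0) * v 0 + (0) * v 1 + (-9) * v 2 + (-84) * v 3 + (-126) * v 4 + (-36) * v 5 + (-1) * v 6 + (0) * v 7 + (0) * v 8,
    (0) * v 0 + (0) * v 1 + (1) * v 2 + (36) * v 3 + (126) * v 4 + (84) * v 5 + (9) * v 6 + (0) * v 7 + (0) * v 8,
    (0) * v 0 + (0) * v 1 + (0) * v 2 + (-9) * v 3 + (-84) * v 4 + (-126) * v 5 + (-36) * v 6 + (-1) * v 7 + (0) * v 8,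
    (0) * v 0 + (0) * v 1 + (0) * v 2 + (1) * v 3 + (36) * v 4 + (126) * v 5 + (84) * v 6 + (9) * v 7 + (0) * v 8,
    (0) * v 0 + (0) * v 1 + (0) * v 2 + (0) * v 3 + (-9) * v 4 + (-84) * v 5 + (-126) * v 6 + (-36) * v 7 + (-1) * v 8] := by
  funext i
  fin_cases i <;> simp [B, mulVec, dotProduct, Fin.sum_univ_succ] <;> try ring

lemma W_odd (z : ℤ) : W (2 * z + 1) = M.mulVec (W z) := by
  rw [M_mulVec]
  have h0 : T 9 (2 * z + 1 - ((0 : ℕ) : ℤ)) = T 9 (2 * (z - 0) + 1) := by congr 1; push_cast; ring
  rw [T_odd] at h0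
  simp only [sub_sub] at h0
  norm_num at h0
  have h1 : T 9 (2 * z + 1 - ((1 : ℕ) : ℤ)) = T 9 (2 * (z - 0)) := by congr 1; push_cast; ring
  rw [T_even] at h1
  simp only [sub_sub] at h1
  norm_num at h1
  have h2 : T 9 (2 * z + 1 - ((2 : ℕ) : ℤ)) = T 9 (2 * (z - 1) + 1) := by congr 1; push_cast; ring
  rw [T_odd] at h2
  simp only [sub_sub] at h2
  norm_num at h2
  have h3 : T 9 (2 * z + 1 - ((3 : ℕ) : ℤ)) = T 9 (2 * (z - 1)) := by congr 1; push_cast; ring
  rw [T_even] at h3
  simp only [sub_sub] at h3
  norm_num at h3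
  have h4 : T 9 (2 * z + 1 - ((4 : ℕ) : ℤ)) = T 9 (2 * (z - 2) + 1) := by congr 1; push_cast; ring
  rw [T_odd] at h4
  simp only [sub_sub] at h4
  norm_num at h4
  have h5 : T 9 (2 * z + 1 - ((5 : ℕ) : ℤ)) = T 9 (2 * (z - 2)) := by congr 1; push_cast; ring
  rw [T_even] at h5
  simp only [sub_sub] at h5
  norm_num at h5
  have h6 : T 9 (2 * z + 1 - ((6 : ℕ) : ℤ)) = T 9 (2 * (z - 3) + 1) := by congr 1; push_cast; ring
  rw [T_odd] at h6
  simp only [sub_sub] at h6
  norm_num at h6
  have h7 : T 9 (2 * z + 1 - ((7 : ℕ) : ℤ)) = T 9 (2 * (z - 3)) := by congr 1; push_cast; ring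
  rw [T_even] at h7
  simp only [sub_sub] at h7
  norm_num at h7
  funext i
  fin_cases i
  · simp [W, Xv]
    first | linarith [h0] | (norm_num at *; linarith [h0])
  · simp [W, Xv]
    first | linarith [h1] | (norm_num at *; linarith [h1])
  · simp [W, Xv]
    first | linarith [h2] | (norm_num at *; linarith [h2])
  · simp [W, Xv]
    first | linarith [h3] | (norm_num at *; linarith [h3])
  · simp [W, Xv]
    first | linarith [h4] | (norm_num at *; linarith [h4])
  · simp [W, Xv]
    first | linarith [h5] | (norm_num at *; linarith [h5])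
  · simp [W, Xv]
    first | linarith [h6] | (norm_num at *; linarith [h6])
  · simp [W, Xv]
    first | linarith [h7] | (norm_num at *; linarith [h7])

lemma W_even (z : ℤ) : W (2 * z) = B.mulVec (Xv z) := by
  rw [B_mulVec]
  have h0 : T 9 (2 * z - ((0 : ℕ) : ℤ)) = T 9 (2 * (z - 0)) := by congr 1; push_cast; ring
  rw [T_even] at h0
  simp only [sub_sub] at h0
  norm_num at h0
  have h1 : T 9 (2 * z - ((1 : ℕ) : ℤ)) = T 9 (2 * (z - 1) + 1) := by congr 1; push_cast; ring
  rw [T_odd] at h1
  simp only [sub_sub] at h1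
  norm_num at h1
  have h2 : T 9 (2 * z - ((2 : ℕ) : ℤ)) = T 9 (2 * (z - 1)) := by congr 1; push_cast; ring
  rw [T_even] at h2
  simp only [sub_sub] at h2
  norm_num at h2
  have h3 : T 9 (2 * z - ((3 : ℕ) : ℤ)) = T 9 (2 * (z - 2) + 1) := by congr 1; push_cast; ring
  rw [T_odd] at h3
  simp only [sub_sub] at h3
  norm_num at h3
  have h4 : T 9 (2 * z - ((4 : ℕ) : ℤ)) = T 9 (2 * (z - 2)) := by congr 1; push_cast; ring
  rw [T_even] at h4
  simp only [sub_sub] at h4
  norm_num at h4
  have h5 : T 9 (2 * z - ((5 : ℕ) : ℤ)) = T 9 (2 * (z - 3) + 1) := by congr 1; push_cast; ring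
  rw [T_odd] at h5
  simp only [sub_sub] at h5
  norm_num at h5
  have h6 : T 9 (2 * z - ((6 : ℕ) : ℤ)) = T 9 (2 * (z - 3)) := by congr 1; push_cast; ring
  rw [T_even] at h6
  simp only [sub_sub] at h6
  norm_num at h6
  have h7 : T 9 (2 * z - ((7 : ℕ) : ℤ)) = T 9 (2 * (z - 4) + 1) := by congr 1; push_cast; ring
  rw [T_odd] at h7
  simp only [sub_sub] at h7
  norm_num at h7
  funext i
  fin_cases i
  · simp [W, Xv]
    first | linarith [h0] | (norm_num at *; linarith [h0])
  · simp [W, Xv]
    first | linarith [h1] | (norm_num at *; linarith [h1])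
  · simp [W, Xv]
    first | linarith [h2] | (norm_num at *; linarith [h2])
  · simp [W, Xv]
    first | linarith [h3] | (norm_num at *; linarith [h3])
  · simp [W, Xv]
    first | linarith [h4] | (norm_num at *; linarith [h4])
  · simp [W, Xv]
    first | linarith [h5] | (norm_num at *; linarith [h5])
  · simp [W, Xv]
    first | linarith [h6] | (norm_num at *; linarith [h6])
  · simp [W, Xv]
    first | linarith [h7] | (norm_num at *; linarith [h7])

lemma parity (n : ℕ) : (T 9 n + T 9 (n - 8)) % 2 = 1 := by
  induction n using Nat.strong_induction_on with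
  | _ n ih =>
    rcases Nat.eq_zero_or_pos n with h0 | h0
    · subst h0
      have h1 : T 9 (((0 : ℕ) : ℤ) - 8) = 0 := T_neg (by norm_num)
      have h2 := T_zero 9
      rw [h1]
      norm_num [h2]
    · obtain ⟨a, ha | ha⟩ := Nat.even_or_odd' n
      · have h1 := ih a (by omega)
        have e1 := T_even (a : ℤ)
        have e2 := T_even ((a : ℤ) - 4)
        simp only [sub_sub] at e2
        norm_num at e2
        rw [show ((n : ℕ) : ℤ) = 2 * (a : ℤ) by rw [ha]; push_cast; ring]
        rw [show (2 * (a : ℤ) - 8) = 2 * ((a : ℤ) - 4) by ring]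
        omega
      · have h1 := ih a (by omega)
        have e1 := T_odd (a : ℤ)
        have e2 := T_odd ((a : ℤ) - 4)
        simp only [sub_sub] at e2
        norm_num at e2
        rw [show ((n : ℕ) : ℤ) = 2 * (a : ℤ) + 1 by rw [ha]; push_cast; ring]
        rw [show (2 * (a : ℤ) + 1 - 8) = 2 * ((a : ℤ) - 4) + 1 by ring]
        omega

/-- the matrices of the windows -/
def R : ℕ → Matrix (Fin 8) (Fin 9) ℤ
  | 0 => R0
  | s + 1 => M * R s

lemma mul_R0 : M * R0 = R1 := by decide +kernel

lemma mul_R1 : M * R1 = R2 := by decide +kernel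

lemma mul_R2 : M * R2 = R3 := by decide +kernel

lemma mul_R3 : M * R3 = R4 := by decide +kernel

lemma mul_R4 : M * R4 = R5 := by decide +kernel

lemma mul_R5 : M * R5 = R6 := by decide +kernel

lemma mul_R6 : M * R6 = R7 := by decide +kernel

lemma mul_R7 : M * R7 = R8 := by decide +kernel

lemma R_0 : R 0 = R0 := rfl

lemma R_1 : R 1 = R1 := by
  show M * R 0 = R1
  rw [R_0, mul_R0]

lemma R_2 : R 2 = R2 := by
  show M * R 1 = R2
  rw [R_1, mul_R1]

lemma R_3 : R 3 = R3 := by
  show M * R 2 = R3
  rw [R_2, mul_R2]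

lemma R_4 : R 4 = R4 := by
  show M * R 3 = R4
  rw [R_3, mul_R3]

lemma R_5 : R 5 = R5 := by
  show M * R 4 = R5
  rw [R_4, mul_R4]

lemma R_6 : R 6 = R6 := by
  show M * R 5 = R6
  rw [R_5, mul_R5]

lemma R_7 : R 7 = R7 := by
  show M * R 6 = R7
  rw [R_6, mul_R6]

lemma R_8 : R 8 = R8 := by
  show M * R 7 = R8
  rw [R_7, mul_R7]

lemma rec0 : R8 = (6560 : ℤ) • R6 + (-8472576 : ℤ) • R4 + (2235564032 : ℤ) • R2 + (-68719476736 : ℤ) • R0 := by decide +kernel

lemma R_rec (s : ℕ) : R (s + 8) = (6560 : ℤ) • R (s + 6) + (-8472576 : ℤ) • R (s + 4) + (2235564032 : ℤ) • R (s + 2) + (-68719476736 : ℤ) • R s := by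
  induction s with
  | zero =>
    simp only [zero_add]
    rw [R_8, R_6, R_4, R_2, R_0, rec0]
  | succ s ih =>
    have h1 : R (s + 1 + 8) = M * R (s + 8) := by rw [show s + 1 + 8 = (s + 8) + 1 by ring]; rfl
    rw [h1, ih]
    simp only [Matrix.mul_add, Matrix.mul_smul]
    rw [show R (s + 1 + 6) = M * R (s + 6) by rw [show s + 1 + 6 = (s + 6) + 1 by ring]; rfl]
    rw [show R (s + 1 + 4) = M * R (s + 4) by rw [show s + 1 + 4 = (s + 4) + 1 by ring]; rfl]
    rw [show R (s + 1 + 2) = M * R (s + 2) by rw [show s + 1 + 2 = (s + 2) + 1 by ring]; rfl]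
    rw [show R (s + 1) = M * R s from rfl]

def B1 : Matrix (Fin 8) (Fin 9) ℤ := !![-9, 306, 1709, -3060, -3231, 162, 27, 0, 0;
    1, -162, 891, 4692, -153, -1170, -3, 0, 0;
    0, -3, -1170, -153, 4692, 891, -162, 1, 0;
    0, 27, 162, -3231, -3060, 1709, 306, -9, 0;
    0, -9, 306, 1709, -3060, -3231, 162, 27, 0;
    0, 1, -162, 891, 4692, -153, -1170, -3, 0;
    0, 0, -3, -1170, -153, 4692, 891, -162, 1;
    0, 0, 27, 162, -3231, -3060, 1709, 306, -9]

def B2 : Matrix (Fin 8) (Fin 9) ℤ := !![-3, 10269, 51057, -232703, -436041, -73737, 9243, 171, 0;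
    27, -3717, -97273, -109449, 297873, 184785, 6669, -387, 0;
    -9, -1369, 58995, 315315, 98277, -163179, -29583, 81, 0;
    1, 2385, 3429, -256347, -431613, -26541, 35799, 1143, 0;
    0, -1143, -35799, 26541, 431613, 256347, -3429, -2385, -1;
    0, -81, 29583, 163179, -98277, -315315, -58995, 1369, 9;
    0, 387, -6669, -184785, -297873, 109449, 97273, 3717, -27;
    0, -171, -9243, 73737, 436041, 232703, -51057, -10269, 3]

lemma B1_eq : M * B = B1 := by decide +kernel

lemma B2_eq : M * B1 = B2 := by decide +kernel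

lemma B3_eq : M * B2 = R0 := by decide +kernel

lemma R0_eq : M * (M * (M * B)) = R0 := by rw [B1_eq, B2_eq, B3_eq]

lemma W_R (n : ℤ) (s : ℕ) : W (2 ^ s * (16 * n + 8) - 1) = (R s).mulVec (Xv n) := by
  induction s with
  | zero =>
    have h0 := W_even n
    have h1 := W_odd (2 * n)
    rw [h0, mulVec_mulVec] at h1
    have h2 := W_odd (2 * (2 * n) + 1)
    rw [h1, mulVec_mulVec] at h2
    have h3 := W_odd (2 * (2 * (2 * n) + 1) + 1)
    rw [h2, mulVec_mulVec] at h3
    rw [R0_eq] at h3
    rw [show (2 ^ 0 * (16 * n + 8) - 1 : ℤ) = 2 * (2 * (2 * (2 * n) + 1) + 1) + 1 by ring, h3]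
    rfl
  | succ s ih =>
    rw [show (2 ^ (s + 1) * (16 * n + 8) - 1 : ℤ) = 2 * (2 ^ s * (16 * n + 8) - 1) + 1 by ring,
      W_odd, ih, mulVec_mulVec]
    rfl

lemma mod_R0 : ∀ i l, R0 i l % 2 ^ (0 + 1) = if l = 0 ∨ l = 8 then 2 ^ 0 else 0 := by decide +kernel

lemma mod_R1 : ∀ i l, R1 i l % 2 ^ (3 + 1) = if l = 0 ∨ l = 8 then 2 ^ 3 else 0 := by decide +kernel

lemma mod_R2 : ∀ i l, R2 i l % 2 ^ (5 + 1) = if l = 0 ∨ l = 8 then 2 ^ 5 else 0 := by decide +kernel

lemma mod_R3 : ∀ i l, R3 i l % 2 ^ (8 + 1) = if l = 0 ∨ l = 8 then 2 ^ 8 else 0 := by decide +kernel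

lemma mod_R4 : ∀ i l, R4 i l % 2 ^ (10 + 1) = if l = 0 ∨ l = 8 then 2 ^ 10 else 0 := by decide +kernel

lemma mod_R5 : ∀ i l, R5 i l % 2 ^ (13 + 1) = if l = 0 ∨ l = 8 then 2 ^ 13 else 0 := by decide +kernel

lemma mod_R6 : ∀ i l, R6 i l % 2 ^ (15 + 1) = if l = 0 ∨ l = 8 then 2 ^ 15 else 0 := by decide +kernel

lemma mod_R7 : ∀ i l, R7 i l % 2 ^ (18 + 1) = if l = 0 ∨ l = 8 then 2 ^ 18 else 0 := by decide +kernel

/-- the exponent -/
def ex (s : ℕ) : ℕ := 5 * ((s + 1) / 2) - 2 * (s % 2)

lemma ex_two (r : ℕ) : ex (r + 2) = ex r + 5 := by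
  obtain ⟨u, rfl | rfl⟩ := Nat.even_or_odd' r <;> unfold ex <;> omega

lemma val (n s : ℕ) (i : Fin 8) : ∃ y : ℤ, y % 2 = 1 ∧ (R s).mulVec (Xv n) i = 2 ^ ex s * y := by
  have hp : (Xv n 0 + Xv n 8) % 2 = 1 := by
    have := parity n
    simpa [Xv] using this
  induction s using Nat.strong_induction_on with
  | _ s ih =>
    rcases Nat.lt_or_ge s 8 with hs | hs
    · interval_cases s
      · rw [R_0]
        exact sum_mod (R0 i) (Xv n) 0 0 8 (by decide) (mod_R0 i) hp
      · rw [R_1]
        exact sum_mod (R1 i) (Xv n) 3 0 8 (by decide) (mod_R1 i) hp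
      · rw [R_2]
        exact sum_mod (R2 i) (Xv n) 5 0 8 (by decide) (mod_R2 i) hp
      · rw [R_3]
        exact sum_mod (R3 i) (Xv n) 8 0 8 (by decide) (mod_R3 i) hp
      · rw [R_4]
        exact sum_mod (R4 i) (Xv n) 10 0 8 (by decide) (mod_R4 i) hp
      · rw [R_5]
        exact sum_mod (R5 i) (Xv n) 13 0 8 (by decide) (mod_R5 i) hp
      · rw [R_6]
        exact sum_mod (R6 i) (Xv n) 15 0 8 (by decide) (mod_R6 i) hp
      · rw [R_7]
        exact sum_mod (R7 i) (Xv n) 18 0 8 (by decide) (mod_R7 i) hp
    · obtain ⟨r, rfl⟩ := Nat.exists_eq_add_of_le' hs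
      obtain ⟨y6, hy6, hr6⟩ := ih (r + 6) (by omega)
      obtain ⟨y4, hy4, hr4⟩ := ih (r + 4) (by omega)
      obtain ⟨y2, hy2, hr2⟩ := ih (r + 2) (by omega)
      obtain ⟨y0, hy0, hr0⟩ := ih (r) (by omega)
      rw [R_rec]
      simp only [add_mulVec, smul_mulVec, Pi.add_apply, Pi.smul_apply, smul_eq_mul]
      rw [hr6, hr4, hr2, hr0]
      have e6 : ex (r + 6) = ex r + 15 := by
        have h1 := ex_two r
        have h3 : ex (r + 4) = ex (r + 2) + 5 := ex_two (r + 2)
        have h5 : ex (r + 6) = ex (r + 4) + 5 := ex_two (r + 4)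
        omega
      have e4 : ex (r + 4) = ex r + 10 := by
        have h1 := ex_two r
        have h3 : ex (r + 4) = ex (r + 2) + 5 := ex_two (r + 2)
        omega
      have e2 : ex (r + 2) = ex r + 5 := by
        have h1 := ex_two r
        omega
      have e8 : ex (r + 8) = ex r + 20 := by
        have h1 := ex_two r
        have h3 : ex (r + 4) = ex (r + 2) + 5 := ex_two (r + 2)
        have h5 : ex (r + 6) = ex (r + 4) + 5 := ex_two (r + 4)
        have h7 : ex (r + 8) = ex (r + 6) + 5 := ex_two (r + 6)
        omega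
      refine ⟨205 * y6 + (-8274) * y4 + 68224 * y2 + (-65536) * y0, by omega, ?_⟩
      rw [e6, e4, e2, e8]
      simp only [pow_add]
      ring

theorem main (n j : ℕ) (hj : j < 8) : emultiplicity (2 : ℤ)
    (Pool.Agent.Results.MP_1a5b88_nt.NotDetermined.t 9 (8 * n + j)) = (ex (padicValNat 2 (n + 1)) : ℕ∞) := by
  obtain ⟨v, a, ha, hv⟩ := Nat.exists_eq_two_pow_mul_odd (n := n + 1) (by omega)
  obtain ⟨b, rfl⟩ := ha
  have hval : padicValNat 2 (n + 1) = v := by
    rw [hv, padicValNat.mul (by positivity) (by omega), padicValNat.prime_pow,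
      padicValNat.eq_zero_of_not_dvd (by omega), add_zero]
  rw [hval]
  have h1 : (((8 * n + j : ℕ)) : ℤ) = 2 ^ v * (16 * (b : ℤ) + 8) - 1 - ((7 - j : ℕ) : ℤ) := by
    have h2 : ((n + 1 : ℕ) : ℤ) = 2 ^ v * (2 * b + 1) := by rw [hv]; push_cast; ring
    have h3 : ((7 - j : ℕ) : ℤ) = 7 - j := by omega
    have h4 : (2 : ℤ) ^ v * (16 * (b : ℤ) + 8) = 8 * (2 ^ v * (2 * b + 1)) := by ring
    rw [h4, ← h2, h3]; push_cast; ring
  rw [← T_nat, h1]
  obtain ⟨y, hy, h⟩ := val b v ⟨7 - j, by omega⟩
  rw [← W_R] at h
  unfold W at h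
  rw [h]
  exact emult hy

end Pool.Agent.V8H23.TM.Nine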