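import Mathlib
import Pool.Agent.Results.MP_1a5b88_nt.NotDetermined

/-!
# Coefficients of powers of the Thue-Morse product: generic part
-/

set_option autoImplicit false

namespace Pool.Agent.V8H23.TM

open Finset
open Pool.Agent.Results.MP_1a5b88_nt.NotDetermined (t c t_eq c_succ)

/-- the coefficients with an integer index -/
noncomputable def T (m : ℕ) (z : ℤ) : ℤ := if z < 0 then 0 else t m z.toNat

lemma T_eq_c {m N : ℕ} {z : ℤ} (h : z < 2 ^ N) : T m z = c m N z := by
  unfold T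
  by_cases hz : z < 0
  · rw [if_pos hz]
    unfold c
    rw [if_pos hz]
  · rw [if_neg hz]
    have h1 : ((z.toNat : ℕ) : ℤ) = z := Int.toNat_of_nonneg (not_lt.1 hz)
    rw [t_eq (N := N), h1]
    have h2 : ((z.toNat : ℕ) : ℤ) < ((2 ^ N : ℕ) : ℤ) := by rw [h1]; exact_mod_cast h
    exact_mod_cast h2

lemma T_rec (m : ℕ) (z : ℤ) : T m z = ∑ j ∈ range (m + 1), (-1) ^ j * (m.choose j : ℤ) *
    (if (z - j) % 2 = 0 then T m ((z - j) / 2) else 0) := by
  obtain ⟨N, hN⟩ : ∃ N : ℕ, z < 2 ^ N := by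
    refine ⟨z.toNat, ?_⟩
    have h1 : (z.toNat : ℤ) < ((2 ^ z.toNat : ℕ) : ℤ) := by exact_mod_cast Nat.lt_two_pow_self
    have h2 := Int.self_le_toNat z
    push_cast at h1
    omega
  have h2 : z < 2 ^ (N + 1) := by
    have : (2 : ℤ) ^ (N + 1) = 2 * 2 ^ N := by ring
    have h3 : (0 : ℤ) < 2 ^ N := by positivity
    omega
  rw [T_eq_c h2, c_succ]
  refine sum_congr rfl fun j _ => ?_
  congr 1
  split_ifs with h3
  · rw [T_eq_c]
    have h3 : (0 : ℤ) < 2 ^ N := by positivity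
    have h4 : (0 : ℤ) ≤ j := Int.natCast_nonneg j
    omega
  · rfl

lemma T_zero (m : ℕ) : T m 0 = 1 := by
  rw [T_eq_c (N := 0) (by norm_num)]
  unfold c
  rw [if_neg (by norm_num)]
  simp [Pool.Agent.Results.MP_1a5b88_nt.NotDetermined.G]

lemma T_neg {m : ℕ} {z : ℤ} (h : z < 0) : T m z = 0 := by
  unfold T; rw [if_pos h]

lemma T_nat (m n : ℕ) : T m n = t m n := by
  unfold T
  rw [if_neg (by omega)]
  simp

/-- a sum with known coefficients modulo a power of two -/
lemma sum_mod {ι : Type*} [Fintype ι] [DecidableEq ι] (C : ι → ℤ) (x : ι → ℤ) (e : ℕ) (a b : ι)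
    (hab : a ≠ b) (h : ∀ i, C i % 2 ^ (e + 1) = if i = a ∨ i = b then 2 ^ e else 0)
    (hx : (x a + x b) % 2 = 1) : ∃ y : ℤ, y % 2 = 1 ∧ ∑ i, C i * x i = 2 ^ e * y := by
  have h1 : ∀ i, ∃ d : ℤ, C i = (if i = a ∨ i = b then 2 ^ e else 0) + 2 ^ (e + 1) * d := by
    intro i
    refine ⟨C i / 2 ^ (e + 1), ?_⟩
    rw [← h i]
    exact (Int.emod_add_mul_ediv _ _).symm
  choose d hd using h1
  refine ⟨x a + x b + 2 * ∑ i, d i * x i, by omega, ?_⟩
  calc ∑ i, C i * x i = ∑ i, ((if i = a ∨ i = b then 2 ^ e else 0) * x i +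
        2 ^ (e + 1) * (d i * x i)) := by
        refine sum_congr rfl fun i _ => ?_
        rw [hd i]; ring
    _ = (∑ i, (if i = a ∨ i = b then (2 : ℤ) ^ e else 0) * x i) + 2 ^ (e + 1) * ∑ i, d i * x i := by
        rw [sum_add_distrib, mul_sum]
    _ = (2 ^ e * x a + 2 ^ e * x b) + 2 ^ (e + 1) * ∑ i, d i * x i := by
        congr 1
        have h2 : ∀ i, (if i = a ∨ i = b then (2 : ℤ) ^ e else 0) * x i =
            (if i = a then 2 ^ e * x i else 0) + (if i = b then 2 ^ e * x i else 0) := by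
          intro i
          by_cases h1 : i = a
          · subst h1
            simp [hab]
          · by_cases h2 : i = b
            · subst h2
              simp [h1]
            · simp [h1, h2]
        rw [sum_congr rfl fun i _ => h2 i, sum_add_distrib]
        simp
    _ = _ := by ring

/-- valuations from odd cofactors -/
lemma emult {e : ℕ} {y : ℤ} (hy : y % 2 = 1) : emultiplicity (2 : ℤ) (2 ^ e * y) = (e : ℕ∞) := by
  rw [emultiplicity_eq_coe]
  refine ⟨Dvd.intro _ rfl, ?_⟩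
  rintro ⟨d, hd⟩
  have h1 : (2 : ℤ) ^ e * y = 2 ^ e * (2 * d) := by rw [hd]; ring
  have h2 : y = 2 * d := mul_left_cancel₀ (by positivity) h1
  omega

end Pool.Agent.V8H23.TM
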